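import Pool.Agent.N204.HR.Stm3
import Pool.Agent.N211.BT.TG2

/-!
# A power of the Frobenius fixes a generated class
-/

set_option linter.unusedSectionVars false

open CategoryTheory AlgebraicGeometry TensorProduct

universe u

namespace Pool.Agent.N79.HR

open Module
open Pool.Agent.H914 Pool.Agent.H914.VarClass Pool.Agent.H914.VarClass.Obj
  Pool.Agent.H914.WeilCohomology
open Pool.Agent.Y133.Half (pw)
open Pool.Agent.Y121.AHS
open Pool.Agent.N996.BP (IsCoordinateMap RForm)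
open Pool.Agent.N204.RD.Raw (Coh IsLin IsLinear IsSub InSpan coh ap vzero vadd vsmul)
open Pool.Agent.N204.HR Pool.Agent.N204.HR.Raw
open Pool.Agent.N211.BT (mulB mulB_apply mapB mapB_apply trB trB_apply nondegE)

/-- Powers of an operator on an eigenvector of a power. -/
lemma pow_eig {E V : Type} [Field E] [AddCommGroup V] [Module E V] (f : Module.End E V) {c : E}
    {x : V} {m : ℕ} (h : (f ^ m) x = c • x) (l : ℕ) : (f ^ (m * l)) x = c ^ l • x := by
  induction l with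
  | zero => simp
  | succ l ih =>
    rw [Nat.mul_succ, add_comm, pow_add, Module.End.mul_apply, ih, map_smul, h, smul_smul,
      ← pow_succ]

variable {k : Type u} [Field k] {𝒱 : VarClass k} {ops : CycleOps 𝒱} {T : HodgeTheory ops}
  {X : 𝒱.Obj} {ψ : RForm T.W X} {E : Type} [Field E] [Algebra T.W.K E] {q : ℕ}
  {φ : ∀ n, (coh T E ψ).H n → (coh T E ψ).H n} {S : ∀ n : ℕ, ℕ → Set (T.W.H (pw X n))}

/-- The Frobenius as a linear map. -/
def Lm (h : IsFrobenius (coh T E ψ) q φ (Raw.ext T E S)) (n : ℕ) :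
    Module.End E (HL T.W E (pw X n)) where
  toFun := φ n
  map_add' := (h.lin n).1
  map_smul' := (h.lin n).2

lemma Lm_apply (h : IsFrobenius (coh T E ψ) q φ (Raw.ext T E S)) (n : ℕ)
    (x : HL T.W E (pw X n)) : Lm h n x = φ n x := rfl

lemma Lm_pow (h : IsFrobenius (coh T E ψ) q φ (Raw.ext T E S)) (n m : ℕ)
    (x : HL T.W E (pw X n)) : (Lm h n ^ m) x = (φ n)^[m] x := by
  rw [Module.End.pow_apply]
  rfl

lemma Lm_succ (h : IsFrobenius (coh T E ψ) q φ (Raw.ext T E S)) (n m : ℕ)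
    (x : HL T.W E (pw X n)) : (Lm h n ^ (m + 1)) x = Lm h n ((Lm h n ^ m) x) := by
  rw [pow_succ', Module.End.mul_apply]

lemma Lm_mul (h : IsFrobenius (coh T E ψ) q φ (Raw.ext T E S)) (n m : ℕ)
    (x y : HL T.W E (pw X n)) :
    (Lm h n ^ m) (mulL x y) = mulL ((Lm h n ^ m) x) ((Lm h n ^ m) y) := by
  induction m with
  | zero => rfl
  | succ m ih =>
    rw [Lm_succ, Lm_succ, Lm_succ, ih]
    exact h.mul n _ _

lemma Lm_pull (h : IsFrobenius (coh T E ψ) q φ (Raw.ext T E S)) {n m : ℕ} (g : pw X m ⟶ pw X n)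
    (hg : IsCoordinateMap g) (M : ℕ) (x : HL T.W E (pw X n)) :
    (Lm h m ^ M) (mapL g x) = mapL g ((Lm h n ^ M) x) := by
  induction M with
  | zero => rfl
  | succ M ih =>
    rw [Lm_succ, Lm_succ, ih]
    exact h.pull n m (mapL g) ⟨g, hg, rfl⟩ _

/-- The Frobenius system on the cohomology with coefficients `E`. -/
lemma frobK (h : IsFrobenius (coh T E ψ) q φ (Raw.ext T E S)) :
    FrobK (baseW T.W E) X q (fun n => (φ n : HL T.W E (pw X n) → HL T.W E (pw X n))) where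
  q_pos := h.q_pos
  add := fun n => (h.lin n).1
  smul := fun n => (h.lin n).2
  mul := fun n x y => h.mul n x y
  gr := fun n i x hx => h.deg n i x hx
  map := fun n m f hf x => by
    have h1 := h.pull n m (mapL f) ⟨f, hf, rfl⟩ x
    have h2 := map_eq T.W E f x
    have h3 := map_eq T.W E f (φ n x)
    exact (congrArg (φ m) h2).trans (h1.trans h3.symm)
  tr := fun x => h.tr x

lemma push_one (h1 : S_F1.{u}) (h : IsFrobenius (coh T E ψ) q φ (Raw.ext T E S)) {n m : ℕ}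
    {g : pw X m ⟶ pw X n} (hg : IsCoordinateMap g) {x : HL T.W E (pw X m)}
    {y : HL T.W E (pw X n)} (hxy : ∀ z, trL (mulL z y) = trL (mulL (mapL g z) x))
    (z : HL T.W E (pw X n)) :
    (q : E) ^ (pw X m).dim * trL (mulL z (Lm h n y)) =
      (q : E) ^ (pw X n).dim * trL (mulL (mapL g z) (Lm h m x)) := by
  have h2 := (h1 k 𝒱 ops (baseW T.W E) X q _ (frobK h)).2.2 n m g hg x y (fun z => by
    rw [map_eq T.W E g z]
    exact hxy z) z
  rw [map_eq T.W E g z] at h2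
  exact h2

lemma trmul_smul {Y : 𝒱.Obj} (z w : HL T.W E Y) (c : E) :
    trL (mulL z (c • w)) = c * trL (mulL z w) := by
  have h1 : trB T.W E Y (mulB T.W E Y z (c • w)) = c • trB T.W E Y (mulB T.W E Y z w) := by
    rw [map_smul, map_smul]
  exact h1

lemma trmul_sub {Y : 𝒱.Obj} (z w w' : HL T.W E Y) :
    trL (mulL z (w - w')) = trL (mulL z w) - trL (mulL z w') := by
  have h1 : trB T.W E Y (mulB T.W E Y z (w - w')) =
      trB T.W E Y (mulB T.W E Y z w) - trB T.W E Y (mulB T.W E Y z w') := by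
    rw [map_sub, map_sub]
  exact h1

lemma push_iter (h1 : S_F1.{u}) (h : IsFrobenius (coh T E ψ) q φ (Raw.ext T E S)) {n m : ℕ}
    {g : pw X m ⟶ pw X n} (hg : IsCoordinateMap g) {x : HL T.W E (pw X m)}
    {y : HL T.W E (pw X n)} (hxy : ∀ z, trL (mulL z y) = trL (mulL (mapL g z) x)) (M : ℕ) :
    ∀ z : HL T.W E (pw X n),
    ((q : E) ^ (pw X m).dim) ^ M * trL (mulL z ((Lm h n ^ M) y)) =
      ((q : E) ^ (pw X n).dim) ^ M * trL (mulL (mapL g z) ((Lm h m ^ M) x)) := by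
  induction M with
  | zero =>
    intro z
    have h2 : ∀ (c : E) (w : HL T.W E (pw X n)), (c ^ 0) * trL (mulL z w) = trL (mulL z w) :=
      fun c w => by rw [pow_zero, one_mul]
    have h3 : ∀ (c : E) (w : HL T.W E (pw X m)), (c ^ 0) * trL (mulL (mapL g z) w) =
      trL (mulL (mapL g z) w) := fun c w => by rw [pow_zero, one_mul]
    exact (h2 _ _).trans ((hxy z).trans (h3 _ _).symm)
  | succ M ih =>
    intro z
    have h2 := push_one h1 h hg (x := ((q : E) ^ (pw X n).dim) ^ M • (Lm h m ^ M) x)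
      (y := ((q : E) ^ (pw X m).dim) ^ M • (Lm h n ^ M) y) (fun z => by
        rw [trmul_smul, trmul_smul, ih z]) z
    rw [map_smul, map_smul, trmul_smul, trmul_smul] at h2
    rw [Lm_succ, Lm_succ, pow_succ, pow_succ]
    calc ((q : E) ^ (pw X m).dim) ^ M * (q : E) ^ (pw X m).dim *
          trL (mulL z (Lm h n ((Lm h n ^ M) y)))
        = (q : E) ^ (pw X m).dim * (((q : E) ^ (pw X m).dim) ^ M *
            trL (mulL z (Lm h n ((Lm h n ^ M) y)))) := by ring
      _ = (q : E) ^ (pw X n).dim * (((q : E) ^ (pw X n).dim) ^ M *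
            trL (mulL (mapL g z) (Lm h m ((Lm h m ^ M) x)))) := h2
      _ = _ := by ring

lemma q_ne (h : IsFrobenius (coh T E ψ) q φ (Raw.ext T E S)) : (q : E) ≠ 0 := by
  have h1 : CharZero E := (baseW T.W E).charZero
  exact Nat.cast_ne_zero.2 h.q_pos.ne'

/-- A power of the Frobenius multiplies `x` by a power of `q`. -/
def Fixd (h : IsFrobenius (coh T E ψ) q φ (Raw.ext T E S)) (n j : ℕ)
    (x : HL T.W E (pw X n)) : Prop :=
  ∃ m : ℕ, 0 < m ∧ (Lm h n ^ m) x = (q : E) ^ (j * m) • x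

lemma common {h : IsFrobenius (coh T E ψ) q φ (Raw.ext T E S)} {n j n' j' : ℕ}
    {x : HL T.W E (pw X n)} {x' : HL T.W E (pw X n')} (hx : Fixd h n j x) (hx' : Fixd h n' j' x') :
    ∃ m : ℕ, 0 < m ∧ (Lm h n ^ m) x = (q : E) ^ (j * m) • x ∧
      (Lm h n' ^ m) x' = (q : E) ^ (j' * m) • x' := by
  obtain ⟨m, hm, h2⟩ := hx
  obtain ⟨m', hm', h3⟩ := hx'
  refine ⟨m * m', Nat.mul_pos hm hm', ?_, ?_⟩
  · rw [pow_eig _ h2, ← pow_mul, mul_assoc]
  · rw [mul_comm m m', pow_eig _ h3, ← pow_mul, mul_assoc]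

lemma fixd_push (h1 : S_F1.{u}) {h : IsFrobenius (coh T E ψ) q φ (Raw.ext T E S)} {n m i j : ℕ}
    {g : pw X m ⟶ pw X n} (hg : IsCoordinateMap g) {x : HL T.W E (pw X m)}
    {y : HL T.W E (pw X n)} (hxy : ∀ z, trL (mulL z y) = trL (mulL (mapL g z) x))
    (hij : j + (pw X n).dim = i + (pw X m).dim) (hx : Fixd h m j x) : Fixd h n i y := by
  obtain ⟨M, hM, h2⟩ := hx
  refine ⟨M, hM, ?_⟩
  rw [← sub_eq_zero]
  apply nondegE
  intro z
  have h3 := push_iter h1 h hg hxy M z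
  rw [h2, trmul_smul, ← hxy z] at h3
  rw [trmul_sub, trmul_smul, sub_eq_zero]
  have hq := q_ne h
  apply mul_left_cancel₀ (pow_ne_zero M (pow_ne_zero (pw X m).dim hq))
  rw [h3, ← mul_assoc, ← mul_assoc, ← pow_mul, ← pow_mul, ← pow_add, ← pow_add]
  congr 2
  rw [← add_mul, ← add_mul, add_comm _ j, hij, add_comm i]

lemma fixd_add {h : IsFrobenius (coh T E ψ) q φ (Raw.ext T E S)} {n j : ℕ}
    {x y : HL T.W E (pw X n)} (hx : Fixd h n j x) (hy : Fixd h n j y) : Fixd h n j (x + y) := by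
  obtain ⟨M, hM, a, b⟩ := common hx hy
  exact ⟨M, hM, by rw [map_add, a, b, smul_add]⟩

lemma fixd_smul {h : IsFrobenius (coh T E ψ) q φ (Raw.ext T E S)} {n j : ℕ}
    {x : HL T.W E (pw X n)} (r : E) (hx : Fixd h n j x) : Fixd h n j (r • x) := by
  obtain ⟨M, hM, a⟩ := hx
  exact ⟨M, hM, by rw [map_smul, a, smul_comm]⟩

lemma mulL_smul {Y : 𝒱.Obj} (z w : HL T.W E Y) (c d : E) :
    mulL (c • z) (d • w) = (c * d) • mulL z w := by
  have h1 : mulB T.W E Y (c • z) (d • w) = (c * d) • mulB T.W E Y z w := by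
    rw [map_smul, map_smul, LinearMap.smul_apply, smul_smul, mul_comm]
  exact h1

lemma fixd_mul {h : IsFrobenius (coh T E ψ) q φ (Raw.ext T E S)} {n i j : ℕ}
    {x y : HL T.W E (pw X n)} (hx : Fixd h n i x) (hy : Fixd h n j y) :
    Fixd h n (i + j) (mulL x y) := by
  obtain ⟨M, hM, a, b⟩ := common hx hy
  refine ⟨M, hM, ?_⟩
  rw [Lm_mul, a, b, mulL_smul, ← pow_add, ← add_mul]

lemma mapL_smul {Y Z : 𝒱.Obj} (g : Y ⟶ Z) (w : HL T.W E Z) (c : E) :
    mapL g (c • w) = c • mapL g w := by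
  have h1 : mapB E g (c • w) = c • mapB E g w := map_smul _ _ _
  exact h1

lemma fixd_pull {h : IsFrobenius (coh T E ψ) q φ (Raw.ext T E S)} {n m j : ℕ}
    {g : pw X m ⟶ pw X n} (hg : IsCoordinateMap g) {x : HL T.W E (pw X n)}
    (hx : Fixd h n j x) : Fixd h m j (mapL g x) := by
  obtain ⟨M, hM, a⟩ := hx
  refine ⟨M, hM, ?_⟩
  rw [Lm_pull h g hg, a, mapL_smul]

lemma Lm_pull1 (h : IsFrobenius (coh T E ψ) q φ (Raw.ext T E S)) {n m : ℕ} (g : pw X m ⟶ pw X n)
    (hg : IsCoordinateMap g) (x : HL T.W E (pw X n)) :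
    Lm h m (mapL g x) = mapL g (Lm h n x) := h.pull n m (mapL g) ⟨g, hg, rfl⟩ x

lemma Lm_mul1 (h : IsFrobenius (coh T E ψ) q φ (Raw.ext T E S)) (n : ℕ)
    (x y : HL T.W E (pw X n)) : Lm h n (mulL x y) = mulL (Lm h n x) (Lm h n y) := h.mul n x y

lemma fixd_frob {h : IsFrobenius (coh T E ψ) q φ (Raw.ext T E S)} {n j : ℕ}
    {g : pw X (n + 1) ⟶ pw X n} (hg : IsCoordinateMap g) {g' : pw X (n + 1) ⟶ pw X 0}
    (hg' : IsCoordinateMap g') (t : Module.End E (HL T.W E (pw X (n + 1))))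
    (hsp : ∀ N : Submodule E (HL T.W E (pw X (n + 1))),
      (∀ a b, mulL (mapL g a) (mapL g' b) ∈ N) → ∀ z, z ∈ N)
    (ht : ∀ a b, t (mulL (mapL g a) (mapL g' b)) = mulL (mapL g a) (mapL g' (Lm h 0 b)))
    {x : HL T.W E (pw X (n + 1))} (hx : Fixd h (n + 1) j x) : Fixd h (n + 1) j (t x) := by
  obtain ⟨M, hM, a⟩ := hx
  have hcom : ∀ z : HL T.W E (pw X (n + 1)), t (Lm h (n + 1) z) = Lm h (n + 1) (t z) := by
    intro z
    have hz := hsp (LinearMap.ker (t * Lm h (n + 1) - Lm h (n + 1) * t)) (fun a b => by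
      rw [LinearMap.mem_ker, LinearMap.sub_apply, Module.End.mul_apply, Module.End.mul_apply,
        Lm_mul1, Lm_pull1 h g hg, Lm_pull1 h g' hg', ht, ht, Lm_mul1, Lm_pull1 h g hg,
        Lm_pull1 h g' hg', sub_self]) z
    rw [LinearMap.mem_ker, LinearMap.sub_apply, Module.End.mul_apply, Module.End.mul_apply,
      sub_eq_zero] at hz
    exact hz
  have hcomM : ∀ M : ℕ, t ((Lm h (n + 1) ^ M) x) = (Lm h (n + 1) ^ M) (t x) := by
    intro M
    induction M with
    | zero => rfl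
    | succ M ih => rw [Lm_succ, Lm_succ, hcom, ih]
  refine ⟨M, hM, ?_⟩
  rw [← hcomM, a, map_smul]

theorem f2 (h1 : S_F1.{u}) : S_F2.{u} := by
  intro k _ 𝒱 ops T X ψ E _ _ q φ S h n j x hx
  have key : Fixd h n j x := by
    induction hx with
    | base hx =>
      obtain ⟨m, hm, h2⟩ := h.fix _ _ _ hx
      exact ⟨m, hm, (Lm_pow h _ m _).trans h2⟩
    | add _ _ hx hy => exact fixd_add hx hy
    | smul r _ hx => exact fixd_smul (r : E) hx
    | mul _ _ hx hy => exact fixd_mul hx hy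
    | pull hf _ hx =>
      obtain ⟨g, hg, rfl⟩ := hf
      exact fixd_pull hg hx
    | push hf _ htr hij hx =>
      obtain ⟨g, hg, rfl⟩ := hf
      exact fixd_push h1 hg htr hij hx
    | @frob n j x p q' t hp hq' hsp ht htpq _ hx =>
      obtain ⟨g, hg, rfl⟩ := hp
      obtain ⟨g', hg', rfl⟩ := hq'
      let t' : Module.End E (HL T.W E (pw X (n + 1))) :=
        { toFun := t
          map_add' := ht.1
          map_smul' := ht.2 }
      refine fixd_frob hg hg' t' (fun N hN z => ?_) htpq hx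
      refine hsp z {z | z ∈ N} ⟨N.zero_mem, fun x hx y hy => N.add_mem hx hy,
        fun c x hx => N.smul_mem c hx⟩ ?_
      rintro _ ⟨a, b, rfl⟩
      exact hN a b
  obtain ⟨m, hm, h2⟩ := key
  exact ⟨m, hm, (Lm_pow h n m x).symm.trans h2⟩

end Pool.Agent.N79.HR
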